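import Pool.Agent.Helper492_FJ.Mor

/-!
# General linear groups over stratified rings

`C` is any class of groups with the closure properties `ClosedE C`, all of which are known for the
class of the groups that satisfy the Farrell-Jones conjecture for A-theory with coefficients and
finite wreath products.

An ideal `J` has local units if each finite subset of `J` lies in a corner `e A e` with an
idempotent `e ∈ J`. The ideals in `Strat C` are built from the zero ideal by directed unions and by
steps from `J` to a larger ideal `J'` with local units such that the general linear groups over the
corners `e (A/J) e`, `e ∈ J'` idempotent, are in `C`.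

(1) Let `J` be such an ideal, `G` a group with a homomorphism `ρ` to `GL_m(A)`, and `N` a normal subgroup
with `G ⧸ N` in `C`. If `ρ` is injective on `N` and `ρ n` is congruent to `1` modulo `J` for `n ∈ N`,
then `G` is in `C`. For `J = A` and `N = G` this says that all `GL_m(A)` are in `C`. For instance `A` may
be the ring `R⟨x, y | x y = 1⟩`, where `J` is the ideal of `1 - y x`, the corners of `J` are matrix rings
over `R` and `A/J` is the ring of Laurent polynomials.

(2) Let `A` be a von Neumann regular ring such that for each proper ideal `J` there is an idempotent
`e`, not in `J`, such that all general linear groups over `e (A/J) e` are in `C` (in a semiartinian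
regular ring one can take `e (A/J) e` to be a division ring). Then all `GL_m(A)` are in `C`.

Outline of the proof. An element of `GL_m(A)` conjugates the idempotent `diag(e, …, e)`, `e ∈ J`, to an
idempotent matrix over `J`, which lies in the corner of some `diag(f, …, f)`, `f ∈ J`. So the criterion
for linear groups modulo finitary ones (`MP_5d3e93_al.FinitaryKernels`, from the realization criterion
`MP_490288_al.RealizationCriterion`) applies. By induction along the stratification the general linear
groups over the corners `e A e` with `e ∈ J` are in `C`: in a step from `J` to `J'` the matrices over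
`e A e` which are `1` modulo `J` form a normal subgroup to which the criterion applies. In (2) one uses
that the ideals of a regular ring have local units, that the ideal generated by `J` and `e` has
corners modulo `J` which embed in matrix rings over `e (A/J) e`, and Zorn's lemma.
-/

set_option autoImplicit false

namespace Pool.Agent.Results.MP_2a547c_gt.StratifiedRings

open Pool.Agent.Y110.FJ Pool.Agent.Helper492_FJ

/-- a group is in the class if it has a normal subgroup with quotient in the class and a homomorphism to
`GL_m(A)` which is injective on the normal subgroup and maps it to matrices congruent to `1` modulo `J` -/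
def Relative (C : ∀ (G : Type) [Group G], Prop) {A : Type} [Ring A] (J : TwoSidedIdeal A) : Prop :=
  ∀ (G : Type) [Group G] (N : Subgroup G) [N.Normal] (m : ℕ) (ρ : G →* (Matrix (Fin m) (Fin m) A)ˣ),
    C (G ⧸ N) → (∀ n ∈ N, ρ n = 1 → n = 1) → (∀ n ∈ N, ∀ i j, ((ρ n).val - 1) i j ∈ J) → C G

/-- each proper ideal `J` misses an idempotent `e` such that all general linear groups over
`e (A/J) e` are in the class -/
def GoodCorners (C : ∀ (G : Type) [Group G], Prop) (A : Type) [Ring A] : Prop :=
  ∀ J : TwoSidedIdeal A, J ≠ ⊤ → ∃ e : A, e ∉ J ∧ IsIdempotentElem e ∧ GLCorner C (J.ringCon.mk' e)

theorem result (C : ∀ (G : Type) [Group G], Prop) (hC : ClosedE C) (A : Type) [Ring A] :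
    (∀ J : TwoSidedIdeal A, Strat C J → Relative C J) ∧
    (Regular A → GoodCorners C A → ∀ m : ℕ, C (Matrix (Fin m) (Fin m) A)ˣ) := by
  refine ⟨fun J hJ G _ N _ m ρ hQ hinj hN => ?_, fun hreg h m => ?_⟩
  · obtain ⟨h1, h2⟩ := strat hC J hJ
    exact relative hC J h1 h2 N hQ ρ hinj hN
  · exact gl_of_strat_top hC (regular_gl hC hreg h) m

end Pool.Agent.Results.MP_2a547c_gt.StratifiedRings
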